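import Pool.Agent.ZGO.StmtsA

/-!
# Row INF: there are infinitely many characters
-/

set_option autoImplicit false

open scoped commutatorElement

namespace Pool.Agent.ZGO.H41

theorem anti {P : Type} [Group P] {A : ℕ → Subgroup P} (h : ∀ M, A (M + 1) ≤ A M) {M M' : ℕ}
    (hM : M ≤ M') : A M' ≤ A M := antitone_nat_of_succ_le h hM

theorem inf (hCHM : ChmStmt) (hEXT : ExtStmt) (hNPL : NplStmt) (hQTN : QtnStmt) : InfStmt := by
  intro P _ d ψ N A B L
  by_contra hfin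
  rw [not_infinite_iff_finite] at hfin
  obtain ⟨c1, c2, c3, -⟩ := hCHM P d ψ N A B L
  -- the characters are stationary
  have hM0 : ∃ M0, ∀ M, Chr (A M) (B M) ≤ Chr (A M0) (B M0) := by
    have h1 : ∀ f : Xs A B, ∃ M, (f : P → QZ) ∈ Chr (A M) (B M) := fun f => (c2 f).1 f.2
    choose m hm using h1
    obtain ⟨M0, hM0⟩ := (Set.finite_range m).bddAbove
    refine ⟨M0, fun M f hf => ?_⟩
    have hfX : f ∈ Xs A B := (c2 f).2 ⟨M, hf⟩
    have h2 : m ⟨f, hfX⟩ ≤ M0 := hM0 (Set.mem_range_self _)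
    exact c1 _ _ h2 (hm ⟨f, hfX⟩)
  obtain ⟨M0, hM0⟩ := hM0
  obtain ⟨n, hn⟩ := L.nil M0
  obtain ⟨K, hK⟩ := hNPL d n
  obtain ⟨M, hM, hKM⟩ := L.unb (K + 1) M0
  obtain ⟨Δ, _, _, ψ', π, hs, h1, h2, hnil, hker, hcard⟩ := hQTN P d ψ N A B L M
  have haps : ∀ k, ∀ g ∈ A M, (⇑ψ)^[k] g ∈ A M := by
    intro k
    induction k with
    | zero => exact fun g hg => hg
    | succ k ih =>
      intro g hg
      rw [Function.iterate_succ_apply']
      exact L.aps M _ (ih g hg)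
  have hit : ∀ k, ∀ a b : A M, (b : P) = (⇑ψ)^[k] a → π b = (⇑ψ')^[k] (π a) := by
    intro k
    induction k with
    | zero =>
      intro a b hb
      have : b = a := Subtype.ext hb
      rw [this]
      rfl
    | succ k ih =>
      intro a b hb
      rw [Function.iterate_succ_apply'] at hb ⊢
      rw [h2 ⟨(⇑ψ)^[k] a, haps k a a.2⟩ b hb, ih a _ rfl]
  have hcom : ∀ x, (⇑ψ')^[n] x ∈ commutator Δ := by
    intro x
    obtain ⟨a, rfl⟩ := hs x
    set b : A M := ⟨(⇑ψ)^[n] a, haps n a a.2⟩ with hb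
    rw [← hit n a b rfl]
    have hbD : (b : P) ∈ ⁅A M, A M⁆ ⊔ N M := by
      by_contra hbD
      obtain ⟨f, hf, hfb⟩ := hEXT P d ψ N A B L M b b.2 hbD
      refine hfb ((c3 M0 f (hM0 M hf)).2 b (L.nb M0 ?_))
      exact hn a (anti L.aan hM a.2)
    have hle : ⁅A M, A M⁆ ⊔ N M ≤ ((commutator Δ).comap π).map (A M).subtype := by
      refine sup_le ?_ ?_
      · rw [Subgroup.commutator_le]
        intro g₁ hg₁ g₂ hg₂
        refine Subgroup.mem_map.2 ⟨⁅(⟨g₁, hg₁⟩ : A M), ⟨g₂, hg₂⟩⁆, ?_, ?_⟩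
        · rw [Subgroup.mem_comap, map_commutatorElement]
          exact Subgroup.commutator_mem_commutator (Subgroup.mem_top _) (Subgroup.mem_top _)
        · rw [map_commutatorElement]
          rfl
      · intro g hg
        refine Subgroup.mem_map.2 ⟨⟨g, L.na M hg⟩, ?_, rfl⟩
        rw [Subgroup.mem_comap, (h1 ⟨g, L.na M hg⟩).2 hg]
        exact one_mem _
    obtain ⟨s, hsS, hsb⟩ := Subgroup.mem_map.1 (hle hbD)
    have : s = b := Subtype.ext hsb
    rw [← this]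
    exact hsS
  have h3 := hK Δ ψ' hnil hker hcom
  omega

end Pool.Agent.ZGO.H41
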